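import Mathlib
import Pool.Agent.KS6_17.HB.Final

set_option autoImplicit false

/-!
# Homomorphism threshold and blowup threshold of graphs with a critical vertex

Let `k ≥ 2` and let `H` be a finite connected graph with a vertex `v` such that `H - v` is
`k`-colourable (if `H` itself is not `k`-colourable, its chromatic number is `k + 1 ≥ 3` and
`1 - 1/k` is its Turán density).

* The homomorphism threshold of `H` is always smaller than `1 - 1/k`.
* The blowup threshold of `H` is at most `1 - 1/k`, and it is equal to `1 - 1/k` if and only if
  the vertices of `H` cannot be partitioned into `k - 1` independent sets and a set which induces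
  a graph of maximum degree at most one (this equivalence needs no connectedness).
* So for all `H` without such a partition the homomorphism threshold is smaller than the blowup
  threshold. This is the case for every complete `(k+1)`-partite graph with exactly one part of
  size one, in particular for `K_{1,2,2}`, `K_{1,2,2,2}`, ….
-/

namespace Pool.Agent.Results.MP_dfc8ea_co.CriticalVertex

open Pool.Agent.KS6_17.HB SimpleGraph

/-- **The thresholds of graphs with a critical vertex.** -/
theorem result :
    (∀ (W : Type) [Fintype W] (H : SimpleGraph W) (k : ℕ), 2 ≤ k → HasCriticalVertex H k →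
      (H.Connected → deltaHom H < 1 - 1 / (k : ℝ)) ∧
      deltaB H ≤ 1 - 1 / (k : ℝ) ∧
      (deltaB H = 1 - 1 / (k : ℝ) ↔ ¬ MatchColorable H k) ∧
      (H.Connected → ¬ MatchColorable H k → deltaHom H < deltaB H)) ∧
    ∀ (k : ℕ) (p : Fin k → ℕ), 2 ≤ k → (∀ i, 2 ≤ p i) →
      (hubMultipartite p).Connected ∧
      deltaHom (hubMultipartite p) < deltaB (hubMultipartite p) ∧
      deltaB (hubMultipartite p) = 1 - 1 / (k : ℝ) := by
  have main : ∀ (W : Type) [Fintype W] (H : SimpleGraph W) (k : ℕ), 2 ≤ k →
      HasCriticalVertex H k → (deltaB H = 1 - 1 / (k : ℝ) ↔ ¬ MatchColorable H k) := by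
    intro W _ H k hk hv
    constructor
    · intro h hM
      exact (deltaB_lt hk hv hM).ne h
    · intro h
      exact le_antisymm (deltaB_le hk hv) (le_deltaB hk hv h)
  refine ⟨fun W _ H k hk hv => ⟨fun hc => deltaHom_lt H hc hk hv, deltaB_le hk hv,
    main W H k hk hv, fun hc hM => ?_⟩, fun k p hk hp => ?_⟩
  · exact (deltaHom_lt H hc hk hv).trans_le (le_deltaB hk hv hM)
  · have h1 := hub_connected p
    have h2 := hub_critical hk p
    have h3 := hub_not_match p hp
    exact ⟨h1, (deltaHom_lt _ h1 hk h2).trans_le (le_deltaB hk h2 h3),
      (main _ _ k hk h2).2 h3⟩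

end Pool.Agent.Results.MP_dfc8ea_co.CriticalVertex
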